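import Pool.Agent.H769Z.Tub.Rep

set_option autoImplicit false
set_option linter.unusedSectionVars false

/-! The explicit matrices generate a free group. -/

namespace H769Z.Tub

section Free
variable {K : Type} [Field K] {Γ : Type} [LinearOrderedCommGroupWithZero Γ] (v : Valuation K Γ)
variable {I L : Type} [Fintype I] [Fintype L] [DecidableEq I] [DecidableEq L]

/-- sup norm -/
noncomputable def nrm (u : W K I L) : Γ :=
  max (Finset.univ.sup fun s => v (u.1 s))
    (max (Finset.univ.sup fun s => v (u.2.1 s)) (Finset.univ.sup fun s => v (u.2.2 s)))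

variable {v}

theorem nrm_le {u : W K I L} {c : Γ} : nrm v u ≤ c ↔
    (∀ s, v (u.1 s) ≤ c) ∧ (∀ s, v (u.2.1 s) ≤ c) ∧ ∀ s, v (u.2.2 s) ≤ c := by
  simp [nrm, Finset.sup_le_iff]

theorem n1 (u : W K I L) (s : I) : v (u.1 s) ≤ nrm v u := (nrm_le.1 le_rfl).1 s
theorem n2 (u : W K I L) (s : I) : v (u.2.1 s) ≤ nrm v u := (nrm_le.1 le_rfl).2.1 s
theorem n3 (u : W K I L) (s : L) : v (u.2.2 s) ≤ nrm v u := (nrm_le.1 le_rfl).2.2 s

theorem vadd {a b : K} {c : Γ} (ha : v a ≤ c) (hb : v b ≤ c) : v (a + b) ≤ c :=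
  (v.map_add a b).trans (max_le ha hb)

theorem vsub {a b : K} {c : Γ} (ha : v a ≤ c) (hb : v b ≤ c) : v (a - b) ≤ c :=
  (v.map_sub a b).trans (max_le ha hb)

theorem vmul {a b : K} {c : Γ} (ha : v a ≤ 1) (hb : v b ≤ c) : v (a * b) ≤ c := by
  rw [map_mul]
  calc v a * v b ≤ 1 * c := by gcongr
    _ = c := one_mul c

theorem isN : IsN v (nrm v : W K I L → Γ) where
  add u w := by
    refine nrm_le.2 ⟨fun s => ?_, fun s => ?_, fun s => ?_⟩
    · exact vadd ((n1 u s).trans (le_max_left _ _)) ((n1 w s).trans (le_max_right _ _))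
    · exact vadd ((n2 u s).trans (le_max_left _ _)) ((n2 w s).trans (le_max_right _ _))
    · exact vadd ((n3 u s).trans (le_max_left _ _)) ((n3 w s).trans (le_max_right _ _))
  smul c u := by
    refine nrm_le.2 ⟨fun s => ?_, fun s => ?_, fun s => ?_⟩
    · simp only [Prod.smul_fst, Pi.smul_apply, smul_eq_mul, map_mul]; gcongr; exact n1 u s
    · simp only [Prod.smul_fst, Prod.smul_snd, Pi.smul_apply, smul_eq_mul, map_mul]; gcongr
      exact n2 u s
    · simp only [Prod.smul_snd, Pi.smul_apply, smul_eq_mul, map_mul]; gcongr; exact n3 u s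

theorem v_ze {z : L → K} {c : Γ} (h : ∀ m, v (z m) ≤ c) (l : L) : v (ze l z) ≤ c := by
  rw [ze_apply]
  exact vsub (v.map_sum_le fun m _ => h m) (h l)

theorem v_single {J : Type} [DecidableEq J] (l m : J) : v ((Pi.single l (1 : K) : J → K) m) ≤ 1 := by
  by_cases h : m = l
  · subst h; simp
  · simp [h]

theorem v_gf (σ : L → I) (l : L) (u : W K I L) : v (gf σ l u) ≤ nrm v u := by
  rw [gf_apply]; exact vadd (n1 u _) (v_ze (n3 u) l)

theorem nrm_Mf (σ : L → I) (io : I → K) {lam : K} (hlam : 1 < v lam)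
    (hc : ∀ k k' s, v (cf io k k' s) ≤ 1) (l₁ l₂ : L) (u : W K I L) :
    nrm v (Mf σ io lam l₁ l₂ u - (lam * gf σ l₂ u) • xv σ l₁) ≤ nrm v u := by
  have hz : ∀ m, v ((u.2.2 - u.2.1 (σ l₂) • (Pi.single l₂ 1 : L → K)) m) ≤ nrm v u := by
    intro m
    simp only [Pi.sub_apply, Pi.smul_apply, smul_eq_mul]
    refine vsub (n3 u m) ?_
    rw [mul_comm]; exact vmul (v_single _ _) (n2 u _)
  have hl : v lam⁻¹ ≤ 1 := by
    rw [map_inv₀]; exact inv_le_one_of_one_le₀ hlam.le
  refine nrm_le.2 ⟨fun s => ?_, fun s => ?_, fun s => ?_⟩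
  · by_cases h : s = σ l₁
    · simp only [Mf, xv, h, Prod.fst_sub, Pi.sub_apply, if_true, Prod.smul_fst, smul_zero,
        Pi.zero_apply, sub_zero]
      refine vadd ?_ (vmul hl (n2 u _))
      rw [Valuation.map_neg]; exact v_ze hz _
    · simp only [Mf, xv, h, Prod.fst_sub, Pi.sub_apply, if_false, Prod.smul_fst, smul_zero,
        Pi.zero_apply, sub_zero]
      exact vmul (hc _ _ _) (n1 u _)
  · by_cases h : s = σ l₁
    · simp [Mf, xv, h]
    · simp only [Mf, xv, h, Prod.snd_sub, Prod.fst_sub, Pi.sub_apply, if_false, Prod.smul_fst,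
        Prod.smul_snd, Pi.smul_apply, Pi.single_eq_of_ne h, smul_zero, sub_zero]
      exact n2 u _
  · simp only [Mf, xv, Prod.snd_sub, Prod.smul_snd, add_sub_cancel_right]
    exact hz s

variable {B : Type} [Fintype B] [DecidableEq B]

theorem free_rep [Nonempty B] [CharZero K] (hv : ∀ n : ℤ, n ≠ 0 → v (n : K) = 1) {lam : K}
    (hlam : 1 < v lam) (σ : B × Bool → I) (io : I → ℤ)
    (hio : Function.Injective fun s => (io s : K)) (hl0 : lam ≠ 0) :
    Function.Injective (FreeGroup.lift (fun o : Option B => match o with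
      | none => (U (fun _ => 2) : W K I (B × Bool) ≃ₗ[K] W K I (B × Bool))
      | some i => M σ hio hl0 (i, true) (i, false))) := by
  have hv' : ∀ n : ℤ, v (n : K) ≤ 1 := by
    intro n
    by_cases h : n = 0
    · simp [h]
    · exact (hv n h).le
  have hc : ∀ k k' s, v (cf (fun s => (io s : K)) k k' s) ≤ 1 := by
    intro k k' s
    unfold cf
    rw [map_div₀, ← Int.cast_sub, ← Int.cast_sub]
    by_cases h : io k' - io (Equiv.swap k k' s) = 0
    · simp [h]
    · rw [hv _ h, div_one]; exact hv' _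
  refine pingpong (isN (v := v)) _ (xv σ) (gf σ) lam hlam (v_gf σ) ?_ ?_ ?_ ?_ ?_ ?_
  · intro l
    refine nrm_le.2 ⟨fun s => by simp [xv], fun s => v_single _ _, fun s => v_single _ _⟩
  · intro n u
    simp only [U_zpow, U_apply]
    refine nrm_le.2 ⟨fun s => ?_, fun s => n2 u s, fun s => n3 u s⟩
    refine vadd (n1 u s) (vmul ?_ (n2 u s))
    have := hv' (n * 2)
    simpa using this
  · intro l l' n h
    simp only [U_zpow, U_apply, gf_apply, xv, ze_single]
    have key : ((0 + (fun _ : I => (n : K) * 2) * Pi.single (σ l') 1 : I → K) (σ l) +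
        if l = l' then 0 else 1) =
        (((if σ l = σ l' then n * 2 else 0) + (if l = l' then 0 else 1) : ℤ) : K) := by
      by_cases h1 : σ l = σ l' <;> by_cases h2 : l = l' <;> simp [h1, h2, Pi.single_apply]
    rw [key]
    apply hv
    by_cases h2 : l = l'
    · have hn : n ≠ 0 := h.resolve_left (not_not.2 h2)
      simp [h2, hn]
    · by_cases h1 : σ l = σ l'
      · simp only [h1, h2, if_true, if_false]; omega
      · simp [h1, h2]
  · intro l
    simp [gf_apply, xv, ze_single]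
  · intro i u
    exact nrm_Mf σ _ hlam hc _ _ u
  · intro i u
    exact nrm_Mf σ _ hlam hc _ _ u

end Free

end H769Z.Tub
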