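import Pool.Agent.H769Z.Tub.Twist

set_option autoImplicit false
set_option linter.unusedSectionVars false

/-! From an invariant faithful representation of the fibre to the mapping torus. -/

namespace H769Z.Tub

variable {K : Type} [Field K] {V : Type} [AddCommGroup V] [Module K V]
variable {F : Type} [Group F]

/-- taking a root of the monodromy (induced representation) -/
theorem power_rep (f : MulAut F) (M : ℕ) (r : F →* (V ≃ₗ[K] V)) (T : V ≃ₗ[K] V)
    (hr : Function.Injective r) (hT : ∀ w, T * r w * T⁻¹ = r ((f ^ (M + 1)) w)) :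
    ∃ (r' : F →* ((Fin (M + 1) → V) ≃ₗ[K] (Fin (M + 1) → V)))
      (T' : (Fin (M + 1) → V) ≃ₗ[K] (Fin (M + 1) → V)),
      Function.Injective r' ∧ ∀ w, T' * r' w * T'⁻¹ = r' (f w) := by
  classical
  let r' : F →* ((Fin (M + 1) → V) ≃ₗ[K] (Fin (M + 1) → V)) :=
    MonoidHom.mk' (fun w => LinearEquiv.piCongrRight fun j => r ((f ^ (j : ℕ)) w)) (by
      intro a b
      refine LinearEquiv.ext fun u => funext fun j => ?_
      simp [LinearEquiv.mul_apply])
  have hr' : ∀ w u j, r' w u j = r ((f ^ (j : ℕ)) w) (u j) := fun w u j => rfl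
  let T' : (Fin (M + 1) → V) ≃ₗ[K] (Fin (M + 1) → V) :=
    (LinearEquiv.funCongrLeft K V (Equiv.addRight (1 : Fin (M + 1)))).trans
      (LinearEquiv.piCongrRight fun j => if j = Fin.last M then T else 1)
  have hT' : ∀ u j, T' u j = (if j = Fin.last M then T else 1) (u (j + 1)) := fun u j => rfl
  refine ⟨r', T', fun a b h => hr (LinearEquiv.ext fun x => ?_), fun w => ?_⟩
  · have := congrFun (LinearEquiv.congr_fun h fun _ => x) 0
    simpa [hr'] using this
  · rw [mul_inv_eq_iff_eq_mul]
    refine LinearEquiv.ext fun u => funext fun j => ?_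
    simp only [LinearEquiv.mul_apply, hT', hr']
    by_cases h : j = Fin.last M
    · subst h
      have h1 := hT w
      rw [mul_inv_eq_iff_eq_mul] at h1
      have h2 := LinearEquiv.congr_fun h1 (u 0)
      simp only [LinearEquiv.mul_apply] at h2
      simp only [if_true, Fin.last_add_one, Fin.val_zero, pow_zero, MulAut.one_apply, Fin.val_last,
        h2, pow_succ, MulAut.mul_apply]
    · have h1 : ((j + 1 : Fin (M + 1)) : ℕ) = j + 1 := Fin.val_add_one_of_lt (Fin.lt_last_iff_ne_last.2 h)
      simp only [h, if_false, h1, pow_succ, MulAut.mul_apply]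
      rfl

/-- the mapping torus is linear -/
theorem torus_linear [CharZero K] [Module.Finite K V] (φ : Multiplicative ℤ →* MulAut F)
    (r : F →* (V ≃ₗ[K] V)) (T : V ≃ₗ[K] V) (hr : Function.Injective r)
    (hT : ∀ w, T * r w * T⁻¹ = r (φ (Multiplicative.ofAdd 1) w)) :
    ∃ (d : ℕ) (f : SemidirectProduct F (Multiplicative ℤ) φ →*
      Matrix.GeneralLinearGroup (Fin d) K), Function.Injective f := by
  classical
  let e : (V ≃ₗ[K] V) × Kˣ →* ((V × K) ≃ₗ[K] (V × K)) :=
    MonoidHom.mk' (fun p => p.1.prodCongr (LinearEquiv.smulOfUnit p.2)) (by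
      intro a b
      refine LinearEquiv.ext fun u => ?_
      simp [LinearEquiv.mul_apply, LinearEquiv.smulOfUnit, mul_smul])
  have he : Function.Injective e := by
    rw [injective_iff_map_eq_one]
    rintro ⟨a, b⟩ h
    refine Prod.ext (LinearEquiv.ext fun x => ?_) (Units.ext ?_)
    · exact congrArg Prod.fst (LinearEquiv.congr_fun h (x, 0))
    · have := congrArg Prod.snd (LinearEquiv.congr_fun h (0, 1))
      simpa [e, LinearEquiv.smulOfUnit, Units.smul_def] using this
  let two : Kˣ := Units.mk0 2 two_ne_zero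
  have hz : ∀ (n : ℤ) w, T ^ n * r w * (T ^ n)⁻¹ = r (φ (Multiplicative.ofAdd n) w) := by
    intro n
    induction n using Int.induction_on with
    | zero => intro w; simp
    | succ n ih =>
      intro w
      rw [ofAdd_add, map_mul, MulAut.mul_apply, ← ih, ← hT, zpow_add_one]; group
    | pred n ih =>
      intro w
      have h1 := ih (φ (Multiplicative.ofAdd (-1)) w)
      have h2 := hT (φ (Multiplicative.ofAdd (-1)) w)
      rw [← MulAut.mul_apply, ← map_mul, ← ofAdd_add] at h1 h2
      simp only [add_neg_cancel, ofAdd_zero, map_one, MulAut.one_apply] at h2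
      rw [sub_eq_add_neg, ← h1, ← h2]; group
  let g : SemidirectProduct F (Multiplicative ℤ) φ →* (V ≃ₗ[K] V) × Kˣ :=
    SemidirectProduct.lift (r.prod 1) (zpowersHom _ (T, two)) (by
      intro n
      ext1 w
      have := hz (Multiplicative.toAdd n) w
      simp only [ofAdd_toAdd] at this
      refine Prod.ext ?_ ?_
      · simpa using this.symm
      · simp)
  have hg : Function.Injective g := by
    rw [injective_iff_map_eq_one]
    rintro ⟨w, n⟩ h
    have h0 : g ⟨w, n⟩ = (r w * T ^ Multiplicative.toAdd n, two ^ Multiplicative.toAdd n) := by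
      simp [g, SemidirectProduct.lift]
    rw [h0] at h
    have h2 : (2 : K) ^ Multiplicative.toAdd n = 1 := by
      have := congrArg (fun p : (V ≃ₗ[K] V) × Kˣ => (p.2 : K)) h
      simpa [two] using this
    have h3 : (2 : ℚ) ^ Multiplicative.toAdd n = 1 := by
      apply Rat.cast_injective (α := K)
      simpa using h2
    have h4 : Multiplicative.toAdd n = 0 := (zpow_eq_one_iff_right₀ (by norm_num) (by norm_num)).1 h3
    have h5 : n = 1 := h4
    subst h5
    have h6 : r w = 1 := by simpa using congrArg Prod.fst h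
    have h7 : w = 1 := hr (by rw [h6, map_one])
    subst h7
    rfl
  let q := ((Matrix.GeneralLinearGroup.toLin' (Module.finBasis K (V × K))).trans
    (LinearMap.GeneralLinearGroup.generalLinearEquiv K (V × K))).symm
  exact ⟨_, q.toMonoidHom.comp (e.comp g), q.injective.comp (he.comp hg)⟩

end H769Z.Tub
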