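import Mathlib

set_option autoImplicit false

/-! Valuation ping-pong for a free group generated by an integral map `a` and maps whose leading
terms are rank one. -/

namespace H769Z.Tub

open Monoid
open scoped Pointwise Function

section PP
variable {K : Type} [Field K] {Γ : Type} [LinearOrderedCommGroupWithZero Γ] (v : Valuation K Γ)
variable {V : Type} [AddCommGroup V] [Module K V] (N : V → Γ)

/-- non-archimedean seminorm compatible with `v` -/
structure IsN : Prop where
  add : ∀ u w, N (u + w) ≤ max (N u) (N w)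
  smul : ∀ (c : K) u, N (c • u) ≤ v c * N u

/-- `u` has leading term `c • w` -/
def Ap (u : V) (c : K) (w : V) : Prop := N (u - c • w) < v c

variable {v N}

theorem ap_val {u w : V} {c : K} (h : Ap v N u c w) (g : V →ₗ[K] K) (hg : ∀ u, v (g u) ≤ N u)
    (hw : v (g w) = 1) : v (g u) = v c := by
  have e : g u = c * g w + g (u - c • w) := by simp
  have h1 : v (c * g w) = v c := by simp [hw]
  rw [e, Valuation.map_add_eq_of_lt_left, h1]
  rw [h1]; exact lt_of_le_of_lt (hg _) h

theorem ap_val0 {u w : V} {c : K} (h : Ap v N u c w) (g : V →ₗ[K] K) (hg : ∀ u, v (g u) ≤ N u)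
    (hw : g w = 0) : v (g u) < v c := by
  have e : g u = g (u - c • w) := by simp [hw]
  rw [e]; exact lt_of_le_of_lt (hg _) h

theorem ap_N (hN : IsN v N) {u w : V} {c : K} (h : Ap v N u c w) (hw : N w ≤ 1) : N u ≤ v c := by
  have e : u = (u - c • w) + c • w := by simp
  rw [e]
  refine (hN.add _ _).trans (max_le (le_of_lt h) ((hN.smul _ _).trans ?_))
  calc v c * N w ≤ v c * 1 := by gcongr
    _ = v c := mul_one _

theorem ap_int {u w : V} {c : K} (h : Ap v N u c w) (M : V ≃ₗ[K] V) (hM : ∀ u, N (M u) ≤ N u) :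
    Ap v N (M u) c (M w) := by
  have e : M u - c • M w = M (u - c • w) := by simp
  unfold Ap; rw [e]; exact lt_of_le_of_lt (hM _) h

theorem ap_big (hN : IsN v N) {u w x y : V} {c lam : K} (h : Ap v N u c w) (hw : N w ≤ 1)
    (g : V →ₗ[K] K) (hg : ∀ u, v (g u) ≤ N u) (hgw : v (g w) = 1) (hlam : 1 < v lam)
    (hy : N (y - (lam * g u) • x) ≤ N u) : Ap v N y (lam * g u) x := by
  have h0 : 0 < v c := lt_of_le_of_lt zero_le h
  unfold Ap
  refine lt_of_le_of_lt (hy.trans (ap_N hN h hw)) ?_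
  rw [map_mul, ap_val h g hg hgw]
  exact lt_mul_of_one_lt_left h0 hlam

theorem ap_self (hN : IsN v N) (w : V) : Ap v N w 1 w := by
  unfold Ap
  have := hN.smul 0 w
  simp only [one_smul, sub_self, map_one]
  simp only [zero_smul, map_zero, zero_mul] at this
  exact lt_of_le_of_lt this zero_lt_one

variable {B : Type}

theorem pingpong [Nonempty B] (hN : IsN v N) (s : Option B → (V ≃ₗ[K] V)) (x : B × Bool → V)
    (g : B × Bool → (V →ₗ[K] K)) (lam : K) (hlam : 1 < v lam)
    (hg : ∀ l u, v (g l u) ≤ N u) (hx : ∀ l, N (x l) ≤ 1)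
    (ha : ∀ (n : ℤ) u, N ((s none ^ n) u) ≤ N u)
    (hgx : ∀ l l' (n : ℤ), (l ≠ l' ∨ n ≠ 0) → v (g l ((s none ^ n) (x l'))) = 1)
    (hgx0 : ∀ l, g l (x l) = 0)
    (hb : ∀ i u, N (s (some i) u - (lam * g (i, false) u) • x (i, true)) ≤ N u)
    (hb' : ∀ i u, N ((s (some i))⁻¹ u - (lam * g (i, true) u) • x (i, false)) ≤ N u) :
    Function.Injective (FreeGroup.lift s) := by
  classical
  let Y : B × Bool → ℤ → Set V := fun l n => {u | ∃ c, Ap v N u c ((s none ^ n) (x l))}
  have hax : ∀ l (n : ℤ), N ((s none ^ n) (x l)) ≤ 1 := fun l n => (ha n _).trans (hx l)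
  have hY : ∀ l l' n u, u ∈ Y l n → u ∈ Y l' 0 → l = l' ∧ n = 0 := by
    rintro l l' n u ⟨c, hc⟩ ⟨c', hc'⟩
    by_contra hne
    have h1 : l' ≠ l ∨ n ≠ 0 := by
      by_cases h : n = 0
      · left; intro h'; exact hne ⟨h'.symm, h⟩
      · right; exact h
    have e1 := ap_val hc (g l') (hg l') (hgx l' l n h1)
    have e2 := ap_val0 hc' (g l') (hg l') (by simpa using hgx0 l')
    have e3 := ap_N hN hc (hax l n)
    have e4 := ap_val hc' (g (l'.1, !l'.2)) (hg _) (hgx _ l' 0 (Or.inl (by
      intro h; have := congrArg Prod.snd h; simp at this)))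
    have e5 := hg (l'.1, !l'.2) u
    rw [e4] at e5
    rw [e1] at e2
    exact absurd (lt_of_le_of_lt (e5.trans e3) e2) (lt_irrefl _)
  have hstep : ∀ i l n u, (l ≠ (i, false) ∨ n ≠ 0) → u ∈ Y l n → s (some i) u ∈ Y (i, true) 0 := by
    rintro i l n u h ⟨c, hc⟩
    refine ⟨lam * g (i, false) u, ?_⟩
    simpa using ap_big hN hc (hax l n) (g (i, false)) (hg _)
        (hgx _ _ _ (h.imp Ne.symm id)) hlam (hb i u)
  have hstep' : ∀ i l n u, (l ≠ (i, true) ∨ n ≠ 0) → u ∈ Y l n →
      (s (some i))⁻¹ u ∈ Y (i, false) 0 := by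
    rintro i l n u h ⟨c, hc⟩
    refine ⟨lam * g (i, true) u, ?_⟩
    simpa using ap_big hN hc (hax l n) (g (i, true)) (hg _)
        (hgx _ _ _ (h.imp Ne.symm id)) hlam (hb' i u)
  have hpos : ∀ i l n u (m : ℕ), (l ≠ (i, false) ∨ n ≠ 0) → u ∈ Y l n →
      (s (some i) ^ (m + 1)) u ∈ Y (i, true) 0 := by
    intro i l n u m h hu
    induction m with
    | zero => simpa using hstep i l n u h hu
    | succ m ih =>
      rw [pow_succ']
      exact hstep i (i, true) 0 _ (Or.inl (by simp)) ih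
  have hneg : ∀ i l n u (m : ℕ), (l ≠ (i, true) ∨ n ≠ 0) → u ∈ Y l n →
      ((s (some i))⁻¹ ^ (m + 1)) u ∈ Y (i, false) 0 := by
    intro i l n u m h hu
    induction m with
    | zero => simpa using hstep' i l n u h hu
    | succ m ih =>
      rw [pow_succ']
      exact hstep' i (i, false) 0 _ (Or.inl (by simp)) ih
  have hzp : ∀ i l n u (m : ℤ), m ≠ 0 → (l.1 ≠ i ∨ n ≠ 0) → u ∈ Y l n →
      ∃ e, (s (some i) ^ m) u ∈ Y (i, e) 0 := by
    intro i l n u m hm h hu
    have h1 : ∀ e, l ≠ (i, e) ∨ n ≠ 0 := fun e => h.imp (fun h h' => h (by rw [h'])) id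
    rcases m with m | m
    · obtain ⟨m, rfl⟩ : ∃ k, m = k + 1 := Nat.exists_eq_succ_of_ne_zero (by simpa using hm)
      refine ⟨true, ?_⟩
      have := hpos i l n u m (h1 _) hu
      rwa [← zpow_natCast] at this
    · refine ⟨false, ?_⟩
      have := hneg i l n u m (h1 _) hu
      rwa [inv_pow, ← zpow_negSucc] at this
  let X : Option B → Set V := fun o => match o with
    | none => {u | ∃ l n, n ≠ 0 ∧ u ∈ Y l n}
    | some i => {u | ∃ e, u ∈ Y (i, e) 0}
  have : FreeGroup.lift s =
      (CoprodI.lift fun i => FreeGroup.lift fun _ => s i).comp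
        (@freeGroupEquivCoprodI (Option B)).toMonoidHom := by
    ext i
    simp
  rw [this, MonoidHom.coe_comp]
  clear this
  refine Function.Injective.comp ?_ (MulEquiv.injective freeGroupEquivCoprodI)
  let H : Option B → Type := fun _i => FreeGroup Unit
  let f : ∀ i, H i →* (V ≃ₗ[K] V) := fun i => FreeGroup.lift fun _ => s i
  obtain ⟨i0⟩ := ‹Nonempty B›
  change Function.Injective (CoprodI.lift f)
  apply CoprodI.lift_injective_of_ping_pong f _ X
  · rintro (_ | i)
    · exact ⟨_, (i0, true), 1, one_ne_zero, 1, ap_self hN _⟩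
    · exact ⟨_, true, 1, ap_self hN _⟩
  · rintro (_ | i) (_ | j) hij
    · exact absurd rfl hij
    · refine Set.disjoint_left.2 ?_
      rintro u ⟨l, n, hn, hu⟩ ⟨e, hu'⟩
      exact hn (hY _ _ _ _ hu hu').2
    · refine Set.disjoint_left.2 ?_
      rintro u ⟨e, hu'⟩ ⟨l, n, hn, hu⟩
      exact hn (hY _ _ _ _ hu hu').2
    · refine Set.disjoint_left.2 ?_
      rintro u ⟨e, hu⟩ ⟨e', hu'⟩
      have := (hY _ _ _ _ hu hu').1
      exact hij (by rw [(Prod.mk.inj this).1])
  · intro i j hij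
    refine FreeGroup.freeGroupUnitEquivInt.forall_congr_left.mpr ?_
    intro n hne1
    change FreeGroup.lift (fun _ => s i) (FreeGroup.of () ^ n) • X j ⊆ X i
    simp only [map_zpow, FreeGroup.lift_apply_of]
    have hn : n ≠ 0 := by
      rintro rfl
      apply hne1
      simp [H, FreeGroup.freeGroupUnitEquivInt]
    rintro _ ⟨u, hu, rfl⟩
    change (s i ^ n) u ∈ X i
    rcases i with _ | i
    · rcases j with _ | j
      · exact absurd rfl hij
      · obtain ⟨e, c, hc⟩ := hu
        refine ⟨(j, e), n, hn, c, ?_⟩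
        simpa using ap_int hc (s none ^ n) (ha n)
    · rcases j with _ | j
      · obtain ⟨l, m, hm, hu⟩ := hu
        exact hzp i l m u n hn (Or.inr hm) hu
      · obtain ⟨e, hu⟩ := hu
        exact hzp i (j, e) 0 u n hn (Or.inl (fun h => hij (by simp at h; rw [h]))) hu
  · right
    use none
    simp only [H]
    rw [FreeGroup.freeGroupUnitEquivInt.cardinal_eq, Cardinal.mk_denumerable]
    exact Cardinal.natCast_le_aleph0

end PP

end H769Z.Tub
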