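import Pool.Agent.H769Z.Tub.PP

set_option autoImplicit false

/-! The explicit representation: one two-dimensional unipotent block for every slope, and one
trivial coordinate for every letter. -/

namespace H769Z.Tub

section Rep
variable {K : Type} [Field K] {I L : Type} [Fintype L] [DecidableEq I] [DecidableEq L]

/-- the space -/
abbrev W (K I L : Type) := (I → K) × (I → K) × (L → K)

/-- unipotent maps, one shear per block -/
def U (d : I → K) : W K I L ≃ₗ[K] W K I L where
  toFun u := (u.1 + d * u.2.1, u.2)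
  invFun u := (u.1 - d * u.2.1, u.2)
  map_add' u w := by ext <;> simp; ring
  map_smul' c u := by ext <;> simp
  left_inv u := by ext <;> simp
  right_inv u := by ext <;> simp

theorem U_apply (d : I → K) (u : W K I L) : U d u = (u.1 + d * u.2.1, u.2) := rfl

theorem U_add (d e : I → K) : (U (d + e) : W K I L ≃ₗ[K] W K I L) = U d * U e := by
  refine LinearEquiv.ext fun u => ?_
  simp only [LinearEquiv.mul_apply, U_apply]
  ext <;> simp; ring

theorem U_zero : (U 0 : W K I L ≃ₗ[K] W K I L) = 1 := by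
  refine LinearEquiv.ext fun u => ?_
  simp [U_apply]

theorem U_zpow (d : I → K) (n : ℤ) :
    (U d : W K I L ≃ₗ[K] W K I L) ^ n = U (fun s => (n : K) * d s) := by
  induction n using Int.induction_on with
  | zero => rw [zpow_zero, ← U_zero]; congr 1; ext s; simp
  | succ n ih => rw [zpow_add_one, ih, ← U_add]; congr 1; ext s; simp; ring
  | pred n ih =>
    rw [zpow_sub_one, ih, mul_inv_eq_iff_eq_mul, ← U_add]; congr 1; ext s; simp; ring

/-- sum of the other coordinates -/
def ze (l : L) : (L → K) →ₗ[K] K where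
  toFun z := (∑ m, z m) - z l
  map_add' u w := by simp [Finset.sum_add_distrib]; ring
  map_smul' c u := by simp [Finset.mul_sum, mul_sub]

theorem ze_apply (l : L) (z : L → K) : ze l z = (∑ m, z m) - z l := rfl

theorem ze_single (l m : L) : ze l (Pi.single m (1 : K)) = if l = m then 0 else 1 := by
  rw [ze_apply]
  by_cases h : l = m
  · subst h; simp
  · simp [h]

variable (σ : L → I)

/-- repelling functional -/
def gf (l : L) : W K I L →ₗ[K] K where
  toFun u := u.1 (σ l) + ze l u.2.2
  map_add' u w := by simp; ring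
  map_smul' c u := by simp; ring

theorem gf_apply (l : L) (u : W K I L) : gf σ l u = u.1 (σ l) + ze l u.2.2 := rfl

/-- attracting vector -/
def xv (l : L) : W K I L := (0, Pi.single (σ l) 1, Pi.single l 1)

variable (io : I → K) (lam : K)

/-- scaling factor -/
def cf (k k' s : I) : K := (io k - io s) / (io k' - io (Equiv.swap k k' s))

/-- the stable letter, as a function -/
def Mf (l₁ l₂ : L) (u : W K I L) : W K I L :=
  (fun s => if s = σ l₁ then - ze l₁ (u.2.2 - u.2.1 (σ l₂) • Pi.single l₂ 1) + lam⁻¹ * u.2.1 (σ l₂)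
      else cf io (σ l₁) (σ l₂) s * u.1 (Equiv.swap (σ l₁) (σ l₂) s),
   fun s => if s = σ l₁ then lam * gf σ l₂ u else u.2.1 (Equiv.swap (σ l₁) (σ l₂) s),
   (u.2.2 - u.2.1 (σ l₂) • Pi.single l₂ 1) + (lam * gf σ l₂ u) • Pi.single l₁ 1)

theorem swap_ne {k k' s : I} (h : s ≠ k) : Equiv.swap k k' s ≠ k' := by
  intro h'
  apply h
  have := congrArg (Equiv.swap k k') h'
  simpa using this

variable {io lam}

theorem cf_mul (hio : Function.Injective io) {k k' s : I} (h : s ≠ k) :
    cf io k k' s * (io k' - io (Equiv.swap k k' s)) = io k - io s := by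
  unfold cf
  exact div_mul_cancel₀ _ (sub_ne_zero.2 fun h' => swap_ne h (hio h').symm)

theorem cf_cf (hio : Function.Injective io) {k k' s : I} (h : s ≠ k) :
    cf io k k' s * cf io k' k (Equiv.swap k k' s) = 1 := by
  have h1 : io k' - io (Equiv.swap k k' s) ≠ 0 := sub_ne_zero.2 fun h' => swap_ne h (hio h').symm
  have h2 : io k - io s ≠ 0 := sub_ne_zero.2 fun h' => h (hio h').symm
  unfold cf
  rw [Equiv.swap_comm k' k, Equiv.swap_apply_self]
  field_simp

theorem Mf_Mf (hio : Function.Injective io) (hlam : lam ≠ 0) (l₁ l₂ : L) (u : W K I L) :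
    Mf σ io lam l₁ l₂ (Mf σ io lam l₂ l₁ u) = u := by
  have hG : gf σ l₂ (Mf σ io lam l₂ l₁ u) = lam⁻¹ * u.2.1 (σ l₁) := by
    simp [gf_apply, Mf, ze_single]; ring
  have hH : (Mf σ io lam l₂ l₁ u).2.1 (σ l₂) = lam * gf σ l₁ u := by simp [Mf]
  have hz : (Mf σ io lam l₂ l₁ u).2.2 - (lam * gf σ l₁ u) • Pi.single l₂ 1 =
      u.2.2 - u.2.1 (σ l₁) • Pi.single l₁ 1 := by simp [Mf]
  refine Prod.ext (funext fun s => ?_) (Prod.ext (funext fun s => ?_) ?_)
  · show (if s = σ l₁ then _ else _) = _
    rw [hH, hz]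
    split_ifs with h
    · subst h
      rw [inv_mul_cancel_left₀ hlam, gf_apply]
      simp [ze_single]
    · show _ * (if _ then _ else _) = _
      rw [if_neg (swap_ne h), ← mul_assoc, cf_cf hio h, Equiv.swap_comm (σ l₂),
        Equiv.swap_apply_self, one_mul]
  · show (if s = σ l₁ then _ else _) = _
    rw [hG]
    split_ifs with h
    · subst h; rw [mul_inv_cancel_left₀ hlam]
    · show (if _ then _ else _) = _
      rw [if_neg (swap_ne h), Equiv.swap_comm (σ l₂), Equiv.swap_apply_self]
  · show _ - _ • _ + _ • _ = _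
    rw [hH, hz, hG, mul_inv_cancel_left₀ hlam]
    simp

/-- the stable letter -/
def M (hio : Function.Injective io) (hlam : lam ≠ 0) (l₁ l₂ : L) : W K I L ≃ₗ[K] W K I L where
  toFun := Mf σ io lam l₁ l₂
  invFun := Mf σ io lam l₂ l₁
  map_add' u w := by
    refine Prod.ext (funext fun s => ?_) (Prod.ext (funext fun s => ?_) (funext fun m => ?_))
    · by_cases h : s = σ l₁ <;> simp [Mf, h, add_smul] <;> ring
    · by_cases h : s = σ l₁ <;> simp [Mf, h, mul_add]
    · simp [Mf]; ring
  map_smul' c u := by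
    refine Prod.ext (funext fun s => ?_) (Prod.ext (funext fun s => ?_) (funext fun m => ?_))
    · by_cases h : s = σ l₁ <;> simp [Mf, h, mul_smul] <;> ring
    · by_cases h : s = σ l₁ <;> simp [Mf, h]; ring
    · simp [Mf]; ring
  left_inv u := Mf_Mf σ hio hlam l₂ l₁ u
  right_inv u := Mf_Mf σ hio hlam l₁ l₂ u

theorem M_apply (hio : Function.Injective io) (hlam : lam ≠ 0) (l₁ l₂ : L) (u : W K I L) :
    M σ hio hlam l₁ l₂ u = Mf σ io lam l₁ l₂ u := rfl

theorem M_inv_apply (hio : Function.Injective io) (hlam : lam ≠ 0) (l₁ l₂ : L) (u : W K I L) :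
    (M σ hio hlam l₁ l₂)⁻¹ u = Mf σ io lam l₂ l₁ u := rfl

theorem M_conj (hio : Function.Injective io) (hlam : lam ≠ 0) (l₁ l₂ : L) :
    M σ hio hlam l₁ l₂ * U (fun s => 2 * (io (σ l₂) - io s)) =
      U (fun s => 2 * (io (σ l₁) - io s)) * M σ hio hlam l₁ l₂ := by
  refine LinearEquiv.ext fun u => ?_
  simp only [LinearEquiv.mul_apply, M_apply, U_apply]
  refine Prod.ext (funext fun s => ?_) (Prod.ext (funext fun s => ?_) (funext fun m => ?_))
  · by_cases h : s = σ l₁
    · simp [Mf, h]
    · simp only [Mf, h, if_false, Pi.add_apply, Pi.mul_apply]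
      rw [← cf_mul hio (k' := σ l₂) h]; ring
  · by_cases h : s = σ l₁ <;> simp [Mf, h, gf_apply]
  · simp [Mf, gf_apply]

end Rep

end H769Z.Tub
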