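import Pool.Agent.H769Z.Tub.Free

set_option autoImplicit false
set_option linter.unusedSectionVars false

/-! Faithful representations of free groups that are invariant under a twist automorphism. -/

namespace H769Z.Tub

open FreeGroup (of lift lift_apply_of)

/-- one fixed letter -/
theorem one_letter {B : Type} [Fintype B] [Nonempty B] (p q : B → ℤ) :
    ∃ (V : Type) (_ : AddCommGroup V) (_ : Module (RatFunc ℚ) V) (_ : Module.Finite (RatFunc ℚ) V)
      (r : FreeGroup (Option B) →* (V ≃ₗ[RatFunc ℚ] V)) (T : V ≃ₗ[RatFunc ℚ] V),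
      Function.Injective r ∧ T * r (of none) * T⁻¹ = r (of none) ∧
      ∀ i, T * r (of (some i)) * T⁻¹ = r (of none) ^ p i * r (of (some i)) * r (of none) ^ q i := by
  classical
  let sl : B × Bool → ℤ := fun l => if l.2 then - p l.1 else q l.1
  let I := {s : ℤ // s ∈ Finset.univ.image sl}
  letI : Fintype I := Finset.fintypeCoeSort _
  let σ : B × Bool → I := fun l => ⟨sl l, Finset.mem_image_of_mem _ (Finset.mem_univ _)⟩
  let K := RatFunc ℚ
  have hio : Function.Injective fun s : I => ((s.1 : ℤ) : K) := fun s s' h =>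
    Subtype.ext (Int.cast_injective (α := K) h)
  have hv : ∀ n : ℤ, n ≠ 0 → RatFunc.inftyValuation ℚ (n : K) = 1 := by
    intro n hn
    have := RatFunc.inftyValuation.C ℚ (k := (n : ℚ)) (by exact_mod_cast hn)
    simpa using this
  have hlam : 1 < RatFunc.inftyValuation ℚ (RatFunc.X : K) := by
    rw [RatFunc.inftyValuation.X, ← WithZero.exp_zero, WithZero.exp_lt_exp]; norm_num
  have hfree := free_rep hv hlam σ Subtype.val hio RatFunc.X_ne_zero
  refine ⟨W K I (B × Bool), inferInstance, inferInstance, inferInstance, _,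
    U (fun s => -2 * ((s.1 : ℤ) : K)), hfree, ?_, fun i => ?_⟩
  · simp only [lift_apply_of]
    rw [mul_inv_eq_iff_eq_mul, ← U_add, ← U_add, add_comm]
  · simp only [lift_apply_of, U_zpow]
    have h := M_conj σ hio (RatFunc.X_ne_zero (K := ℚ)) (i, true) (i, false)
    rw [mul_inv_eq_iff_eq_mul, mul_assoc, ← U_add, mul_assoc]
    have e1 : ((fun _ : I => ((q i : ℤ) : K) * 2) + fun s : I => -2 * ((s.1 : ℤ) : K)) =
        fun s : I => 2 * ((((σ (i, false)).1 : ℤ) : K) - ((s.1 : ℤ) : K)) := by
      ext s; simp [σ, sl]; ring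
    rw [e1, h, ← mul_assoc, ← U_add]
    congr 2
    ext s; simp [σ, sl]; ring

/-- the test action used to see that the change of letters is injective -/
theorem inj_of_action {A H : Type} [Group H] (th : FreeGroup A →* H) {Ω : Type}
    (act : H →* Equiv.Perm (Ω × FreeGroup A)) (o : Ω)
    (h : ∀ i g, act (th (of i)) (o, g) = (o, of i * g)) : Function.Injective th := by
  have key : ∀ w g, act (th w) (o, g) = (o, w * g) := by
    intro w
    induction w using FreeGroup.induction_on with
    | C1 => intro g; simp
    | of i => exact h i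
    | inv_of i ih =>
      intro g
      rw [map_inv, map_inv, Equiv.Perm.inv_eq_iff_eq, ih]; simp
    | mul x y hx hy =>
      intro g
      rw [map_mul, map_mul, Equiv.Perm.mul_apply, hy, hx, mul_assoc]
  intro x y hxy
  have h1 := key x 1
  rw [hxy, key y 1] at h1
  simpa using h1.symm

/-- several fixed letters -/
theorem twist_rep {A : Type} [Fintype A] (ψ : FreeGroup A →* FreeGroup A)
    (hψ : ∀ i, ∃ (k l : A) (p q : ℤ), ψ (of k) = of k ∧ ψ (of l) = of l ∧
      ψ (of i) = of k ^ p * of i * of l ^ q) :
    ∃ (V : Type) (_ : AddCommGroup V) (_ : Module (RatFunc ℚ) V) (_ : Module.Finite (RatFunc ℚ) V)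
      (r : FreeGroup A →* (V ≃ₗ[RatFunc ℚ] V)) (T : V ≃ₗ[RatFunc ℚ] V),
      Function.Injective r ∧ ∀ w, T * r w * T⁻¹ = r (ψ w) := by
  classical
  choose k l p q hk hl hi using hψ
  let B := Option (A ⊕ A)
  let P : B → ℤ := fun b => match b with
    | some (Sum.inr i) => p i
    | _ => 0
  let Q : B → ℤ := fun b => match b with
    | some (Sum.inr i) => q i
    | _ => 0
  obtain ⟨V, i1, i2, i3, r, T, hr, hT0, hT⟩ := one_letter P Q
  let c : A → FreeGroup (Option B) := fun j => of (some (some (Sum.inl j)))
  let b : A → FreeGroup (Option B) := fun j => of (some (some (Sum.inr j)))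
  let th : FreeGroup A →* FreeGroup (Option B) := lift fun i =>
    if ψ (of i) = of i then c i * of none * (c i)⁻¹ else c (k i) * b i * (c (l i))⁻¹
  have hth : Function.Injective th := by
    let pa : Equiv.Perm (Option A × FreeGroup A) :=
      Equiv.prodShear (Equiv.refl _) fun o => Equiv.mulLeft (o.elim 1 of)
    let act : FreeGroup (Option B) →* Equiv.Perm (Option A × FreeGroup A) := lift fun o =>
      match o with
      | none => pa
      | some none => 1
      | some (some (Sum.inl j)) => Equiv.prodCongr (Equiv.swap none (some j)) (Equiv.refl _)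
      | some (some (Sum.inr i)) =>
          Equiv.prodCongr (Equiv.swap (some (l i)) (some (k i))) (Equiv.mulLeft (of i))
    refine inj_of_action th act none fun i g => ?_
    have hc : ∀ j g, (act (c j))⁻¹ (none, g) = (some j, g) := by
      intro j g
      rw [Equiv.Perm.inv_eq_iff_eq]
      simp [act, c]
    by_cases h : ψ (of i) = of i
    · simp only [th, lift_apply_of, h, if_true, map_mul, map_inv, Equiv.Perm.mul_apply, hc]
      simp [act, c, pa]
    · simp only [th, lift_apply_of, h, if_false, map_mul, map_inv, Equiv.Perm.mul_apply, hc]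
      simp [act, c, b]
  refine ⟨V, i1, i2, i3, r.comp th, T, hr.comp hth, fun w => ?_⟩
  have hc : ∀ j, MulAut.conj T (r (c j)) = r (c j) := fun j => by
    simpa [P, Q] using hT (some (Sum.inl j))
  have hb : ∀ j, MulAut.conj T (r (b j)) = r (of none) ^ p j * r (b j) * r (of none) ^ q j :=
    fun j => hT (some (Sum.inr j))
  have hT1 : MulAut.conj T (r (of none)) = r (of none) := hT0
  have hfix : ∀ j, ψ (of j) = of j → th (of j) = c j * of none * (c j)⁻¹ := by
    intro j h; simp [th, h]
  have key : (MulAut.conj T).toMonoidHom.comp (r.comp th) = (r.comp th).comp ψ := by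
    ext1 i
    simp only [MonoidHom.comp_apply, MulEquiv.coe_toMonoidHom]
    by_cases h : ψ (of i) = of i
    · rw [h, hfix i h]
      simp only [map_mul, map_inv, hc, hT1]
    · have e : th (of i) = c (k i) * b i * (c (l i))⁻¹ := by simp [th, h]
      rw [hi i]
      simp only [map_mul, map_zpow, hfix _ (hk i), hfix _ (hl i), e, map_inv,
        hc, hb, conj_zpow]
      group
  exact DFunLike.congr_fun key w

end H769Z.Tub
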